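import Mathlib

set_option autoImplicit false

namespace Pool.Agent.H.MP_ba91e3_al

open scoped InnerProductSpace
open ContinuousLinearMap

noncomputable abbrev Hs := lp (fun _ : ℕ => ℂ) 2
noncomputable abbrev B := Hs →L[ℂ] Hs

def Pr (a : B) : Prop := a * a = a ∧ star a = a
noncomputable abbrev rg (a : B) : Submodule ℂ Hs := LinearMap.range (a : Hs →ₗ[ℂ] Hs)
def Fn (a : B) : Prop := FiniteDimensional ℂ (rg a)
noncomputable def rk (a : B) : ℕ := Module.finrank ℂ (rg a)

lemma Fn.sub {a : B} (h : Fn a) (x y : B) : Fn (x * a * y) ∧ rk (x * a * y) ≤ rk a := by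
  have : FiniteDimensional ℂ (rg a) := h
  have l : rg (x * a * y) ≤ (rg a).map (x : Hs →ₗ[ℂ] Hs) := by
    rintro _ ⟨v, rfl⟩
    exact ⟨a (y v), ⟨_, rfl⟩, rfl⟩
  exact ⟨Submodule.finiteDimensional_of_le l,
    (Submodule.finrank_mono l).trans (Submodule.finrank_map_le _ _)⟩

lemma pi_mul {A : Type*} [NonUnitalCStarAlgebra A] {w a : A} (h : star w * w = a)
    (ha : a * a = a) : w * a = w := by
  have hs : star a = a := by rw [← h, star_mul, star_star]
  rw [← sub_eq_zero, ← CStarRing.star_mul_self_eq_zero_iff, star_sub, star_mul, hs, sub_mul,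
    mul_sub, mul_sub, mul_assoc, mul_assoc, ← mul_assoc (star w), h, ha, ha]
  simp

lemma R1 {w a b : B} (h1 : star w * w = a) (h2 : w * star w = b) (ha : a * a = a) (hf : Fn a) :
    Fn b ∧ rk b = rk a := by
  have e1 : b = w * a * star w := by rw [pi_mul h1 ha, h2]
  have e2 : a = star w * b * w := by rw [← h2, ← mul_assoc, h1, mul_assoc, h1, ha]
  have := hf.sub w (star w)
  rw [← e1] at this
  have h3 := (this.1.sub (star w) w).2
  rw [← e2] at h3
  exact ⟨this.1, le_antisymm this.2 h3⟩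

lemma Fn.add {a b : B} (ha : Fn a) (hb : Fn b) : Fn (a + b) := by
  have : FiniteDimensional ℂ (rg a) := ha
  have : FiniteDimensional ℂ (rg b) := hb
  refine Submodule.finiteDimensional_of_le (S₂ := rg a ⊔ rg b) ?_
  rintro _ ⟨v, rfl⟩
  exact Submodule.add_mem_sup ⟨v, rfl⟩ ⟨v, rfl⟩

lemma R3 {a b : B} (ha : Pr a) (hb : Pr b) (h : a * b = 0) (fa : Fn a) (fb : Fn b) :
    rk (a + b) = rk a + rk b := by
  have : FiniteDimensional ℂ (rg a) := fa
  have : FiniteDimensional ℂ (rg b) := fb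
  have h' : b * a = 0 := by rw [← ha.2, ← hb.2, ← star_mul, h, star_zero]
  have e : rg (a + b) = rg a ⊔ rg b := by
    refine le_antisymm ?_ (sup_le ?_ ?_)
    · rintro _ ⟨v, rfl⟩
      exact Submodule.add_mem_sup ⟨v, rfl⟩ ⟨v, rfl⟩
    · rintro _ ⟨v, rfl⟩
      exact ⟨a v, by
        have : (a + b) * a = a := by rw [add_mul, ha.1, h', add_zero]
        exact congrArg (· v) this⟩
    · rintro _ ⟨v, rfl⟩
      exact ⟨b v, by
        have : (a + b) * b = b := by rw [add_mul, hb.1, h, zero_add]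
        exact congrArg (· v) this⟩
  have d : rg a ⊓ rg b = ⊥ := by
    rw [eq_bot_iff]
    rintro x ⟨⟨y, rfl⟩, ⟨z, hz⟩⟩
    have h1 : a (a y) = a y := congrArg (· y) ha.1
    have h2 : a (b z) = 0 := congrArg (· z) h
    have h3 : b z = a y := hz
    rw [h3, h1] at h2
    exact h2
  have := Submodule.finrank_sup_add_finrank_inf_eq (rg a) (rg b)
  rw [d, finrank_bot, add_zero] at this
  rw [rk, e, this]; rfl

noncomputable def πq (q : B) : Hs →L[ℂ] rg q := q.codRestrict _ fun v => ⟨v, rfl⟩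

lemma ιπ (q : B) : (rg q).subtypeL ∘L πq q = q := rfl

lemma πι {q : B} (h : Pr q) : πq q ∘L (rg q).subtypeL = 1 := by
  ext ⟨_, v, rfl⟩ : 2
  exact congrArg (· v) h.1

lemma adjι {q : B} (h : Pr q) [CompleteSpace (rg q)] : adjoint (rg q).subtypeL = πq q := by
  symm
  rw [eq_adjoint_iff]
  rintro x ⟨_, v, rfl⟩
  have h1 : q (q v) = q v := congrArg (· v) h.1
  show ⟪q x, q v⟫_ℂ = ⟪x, q v⟫_ℂ
  rw [← adjoint_inner_right, ← star_eq_adjoint, h.2, h1]

lemma adjπ {q : B} (h : Pr q) [CompleteSpace (rg q)] : adjoint (πq q) = (rg q).subtypeL := by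
  rw [← adjι h, adjoint_adjoint]

lemma R2 {a b : B} (ha : Pr a) (hb : Pr b) (fa : Fn a) (fb : Fn b) (h : rk a = rk b) :
    ∃ w : B, star w * w = a ∧ w * star w = b := by
  have : FiniteDimensional ℂ (rg a) := fa
  have : FiniteDimensional ℂ (rg b) := fb
  have := FiniteDimensional.complete ℂ (rg a)
  have := FiniteDimensional.complete ℂ (rg b)
  let e : rg a ≃ₗᵢ[ℂ] rg b := (stdOrthonormalBasis ℂ (rg a)).equiv (stdOrthonormalBasis ℂ (rg b))
    (finCongr h)
  let E : rg a →L[ℂ] rg b := e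
  let E' : rg b →L[ℂ] rg a := e.symm
  have e1 : adjoint E = E' := e.adjoint_eq_symm
  have e2 : E' ∘L E = 1 := by ext1 x; exact e.symm_apply_apply x
  have e3 : E ∘L E' = 1 := by ext1 x; exact e.apply_symm_apply x
  refine ⟨(rg b).subtypeL ∘L E ∘L πq a, ?_, ?_⟩ <;>
    rw [star_eq_adjoint, adjoint_comp, adjoint_comp, adjι hb, adjπ ha, e1, mul_def]
  · rw [comp_assoc, ← comp_assoc (πq b), πι hb, one_def, id_comp, comp_assoc, ← comp_assoc E', e2,
      one_def, id_comp, ιπ]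
  · rw [comp_assoc, comp_assoc, comp_assoc, ← comp_assoc (πq a), πι ha, one_def, id_comp,
      ← comp_assoc E, e3, one_def, id_comp, ιπ]

lemma joined_fd {E : Type*} [NormedAddCommGroup E] [InnerProductSpace ℂ E] [FiniteDimensional ℂ E]
    [CompleteSpace E] (u : unitary (E →L[ℂ] E)) : Joined 1 u := by
  have fin : (spectrum ℂ (u : E →L[ℂ] E)).Finite := by
    rw [spectrum_eq]; exact Module.End.finite_spectrum _
  obtain ⟨θ, hθ⟩ : ∃ θ : ℝ, -Complex.exp (θ * Complex.I) ∉ spectrum ℂ (u : E →L[ℂ] E) := by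
    by_contra hc
    push Not at hc
    refine (Set.Ioo_infinite (zero_lt_one' ℝ)) (Set.Finite.of_finite_image
      (f := fun θ : ℝ => -Complex.exp (θ * Complex.I)) (fin.subset ?_) ?_)
    · rintro _ ⟨θ, -, rfl⟩; exact hc θ
    · intro x hx y hy h
      have := congrArg Complex.arg (neg_injective h)
      have p := Real.pi_gt_three
      rwa [Complex.arg_exp_mul_I, Complex.arg_exp_mul_I,
        (toIocMod_eq_self _).2 ⟨by linarith [hx.1], by linarith [hx.2]⟩,
        (toIocMod_eq_self _).2 ⟨by linarith [hy.1], by linarith [hy.2]⟩] at this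
  have cj : ∀ t : ℝ,
      (starRingEnd ℂ) (Complex.exp (t * Complex.I)) * Complex.exp (t * Complex.I) = 1 := by
    intro t; rw [← Complex.exp_conj, ← Complex.exp_add]; simp
  let c : ℝ → unitary (E →L[ℂ] E) := fun t => ⟨Complex.exp (t * Complex.I) • 1, by
    constructor <;> simp [smul_smul, cj, mul_comm (Complex.exp _)]⟩
  have c1 : Joined 1 (c θ) := ⟨⟨⟨fun t => c (t * θ), by fun_prop⟩, by ext1; simp [c], by simp⟩⟩
  refine c1.trans (Unitary.joined _ _ ?_)
  rw [Unitary.norm_sub_eq, Unitary.norm_sub_one_lt_two_iff (Subtype.prop _)]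
  intro h
  apply hθ
  have := (spectrum.smul_mem_smul_iff
    (r := Units.mk0 (Complex.exp (θ * Complex.I)) (Complex.exp_ne_zero _))).2 h
  simpa [c, smul_smul, cj, mul_comm (Complex.exp _)] using this

lemma R7 {q z : B} (hq : Pr q) (fq : Fn q) (h1 : star z * z = q) (h2 : z * star z = q) :
    ∃ ζ : unitInterval → B, Continuous ζ ∧ ζ 0 = q ∧ ζ 1 = z ∧
      ∀ t, star (ζ t) * ζ t = q ∧ ζ t * star (ζ t) = q := by
  have : FiniteDimensional ℂ (rg q) := fq
  have := FiniteDimensional.complete ℂ (rg q)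
  have a1 : z * q = z := pi_mul h1 hq.1
  have a2 : star z * q = star z := pi_mul (by rw [star_star, h2]) hq.1
  have a3 : q * z = z := by rw [← star_star (q * z), star_mul, hq.2, a2, star_star]
  have k : ∀ x : B, πq q ∘L (q ∘L (rg q).subtypeL) = 1 := fun _ => by
    have : q ∘L (rg q).subtypeL = (rg q).subtypeL := by
      conv_lhs => enter [1]; rw [← ιπ q]
      rw [comp_assoc, πι hq, one_def, comp_id]
    rw [this, πι hq]
  let T : unitary (rg q →L[ℂ] rg q) := ⟨πq q ∘L z ∘L (rg q).subtypeL, by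
    constructor <;> rw [star_eq_adjoint, adjoint_comp, adjoint_comp, adjι hq, adjπ hq, mul_def,
      ← star_eq_adjoint] <;> simp only [comp_assoc]
    · rw [← comp_assoc (rg q).subtypeL, ιπ, ← comp_assoc q, ← mul_def q, a3, ← comp_assoc (star z),
        ← mul_def, h1, k q]
    · rw [← comp_assoc (rg q).subtypeL, ιπ, ← comp_assoc z, ← mul_def z, a1, ← comp_assoc z,
        ← mul_def, h2, k q]⟩
  obtain ⟨γ⟩ := joined_fd T
  refine ⟨fun t => (rg q).subtypeL ∘L (γ t : rg q →L[ℂ] rg q) ∘L πq q, by fun_prop, ?_, ?_,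
    fun t => ?_⟩
  · simp only [γ.source]; rfl
  · simp only [γ.target, T, comp_assoc]
    rw [ιπ, ← comp_assoc (rg q).subtypeL, ιπ, ← mul_def, ← mul_def, a1, a3]
  · have b1 := (γ t).2.1
    have b2 := (γ t).2.2
    rw [star_eq_adjoint, mul_def] at b1 b2
    constructor <;> rw [star_eq_adjoint, adjoint_comp, adjoint_comp, adjι hq, adjπ hq, mul_def] <;>
      simp only [comp_assoc] <;> rw [← comp_assoc (πq q), πι hq, one_def, id_comp]
    · rw [← comp_assoc (adjoint _), b1, one_def, id_comp, ιπ]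
    · rw [← comp_assoc _ (adjoint _), b2, one_def, id_comp, ιπ]

lemma ex_rank_one : ∃ e : B, Pr e ∧ Fn e ∧ rk e = 1 := by
  let x : Hs := lp.single 2 0 1
  have hx : x ≠ 0 := fun h => by simpa [x] using congrArg (· 0) h
  have r : rg (ℂ ∙ x).starProjection = ℂ ∙ x := Submodule.range_starProjection _
  refine ⟨(ℂ ∙ x).starProjection, ⟨(ℂ ∙ x).isIdempotentElem_starProjection,
    (isSelfAdjoint_starProjection _)⟩, ?_, ?_⟩
  · rw [Fn, r]; infer_instance
  · rw [rk, r, finrank_span_singleton hx]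

lemma ex_s : ∃ s : ℕ → B, ∀ i j, star (s i) * s j = if i = j then 1 else 0 := by
  let v : ℕ → ℕ → Hs := fun i n => lp.single 2 (Nat.pair i n) 1
  have iv : ∀ i n j m, ⟪v i n, v j m⟫_ℂ = if i = j ∧ n = m then 1 else 0 := by
    intro i n j m
    simp only [v, lp.inner_single_left, lp.single_apply, Pi.single_apply, Nat.pair_eq_pair]
    split_ifs <;> simp
  have ov : ∀ i, Orthonormal ℂ (v i) := fun i => orthonormal_iff_ite.2 fun n m => by simp [iv]
  let S : ℕ → Hs →ₗᵢ[ℂ] Hs := fun i => (ov i).orthogonalFamily.linearIsometry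
  have hs : ∀ i (x y : Hs), (∀ n, ⟪y, v i n⟫_ℂ = 0) → ⟪y, S i x⟫_ℂ = 0 := by
    intro i x y h
    have := ((ov i).orthogonalFamily.hasSum_linearIsometry x).mapL (innerSL ℂ y)
    simp only [LinearIsometry.toSpanSingleton_apply, innerSL_apply_apply, inner_smul_right, h,
      mul_zero] at this
    exact this.unique hasSum_zero
  refine ⟨fun i => (S i).toContinuousLinearMap, fun i j => ?_⟩
  ext1 x
  refine ext_inner_left ℂ fun y => ?_
  refine (adjoint_inner_right (S i).toContinuousLinearMap y (S j x)).trans ?_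
  split_ifs with h
  · subst h; exact (S i).inner_map_map y x
  · refine Eq.trans (hs j x _ fun n => ?_) (inner_zero_right y).symm
    rw [inner_eq_zero_symm]
    exact hs i y _ fun m => by rw [iv, if_neg fun h' => h h'.1.symm]

lemma R8 {a b : B} (ha : Fn a) (hb : Fn b) : ∃ F : B, IsStarProjection F ∧ Fn F ∧ F * a = a ∧
    F * b = b := by
  have : FiniteDimensional ℂ (rg a) := ha
  have : FiniteDimensional ℂ (rg b) := hb
  have r : rg (rg a ⊔ rg b).starProjection = rg a ⊔ rg b := Submodule.range_starProjection _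
  refine ⟨(rg a ⊔ rg b).starProjection, isStarProjection_starProjection, ?_, ?_, ?_⟩
  · rw [Fn, r]; infer_instance
  · ext1 x
    exact Submodule.starProjection_eq_self_iff.2 (Submodule.mem_sup_left ⟨x, rfl⟩)
  · ext1 x
    exact Submodule.starProjection_eq_self_iff.2 (Submodule.mem_sup_right ⟨x, rfl⟩)

structure RD (A : Type) [CStarAlgebra A] where
  Fn : A → Prop
  rk : A → ℕ
  s : ℕ → A
  e : A
  sub : ∀ {a : A}, Fn a → ∀ x y, Fn (x * a * y) ∧ rk (x * a * y) ≤ rk a
  add : ∀ {a b : A}, Fn a → Fn b → Fn (a + b)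
  R2 : ∀ {a b : A}, IsStarProjection a → IsStarProjection b → Fn a → Fn b → rk a = rk b →
    ∃ w : A, star w * w = a ∧ w * star w = b
  R3 : ∀ {a b : A}, IsStarProjection a → IsStarProjection b → a * b = 0 → Fn a → Fn b →
    rk (a + b) = rk a + rk b
  R7 : ∀ {q z : A}, IsStarProjection q → Fn q → star z * z = q → z * star z = q →
    ∃ ζ : unitInterval → A, Continuous ζ ∧ ζ 0 = q ∧ ζ 1 = z ∧
      ∀ t, star (ζ t) * ζ t = q ∧ ζ t * star (ζ t) = q
  R8 : ∀ {a b : A}, Fn a → Fn b → ∃ F : A, IsStarProjection F ∧ Fn F ∧ F * a = a ∧ F * b = b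
  he : IsStarProjection e ∧ Fn e ∧ rk e = 1
  hs : ∀ i j, star (s i) * s j = if i = j then 1 else 0

theorem ex_RD : ∃ (A : Type) (_ : CStarAlgebra A), Nonempty (RD A) := by
  obtain ⟨e, e1, e2⟩ := ex_rank_one
  obtain ⟨s, hs⟩ := ex_s
  exact ⟨B, inferInstance, ⟨⟨Fn, rk, s, e, Fn.sub, Fn.add,
    fun ha hb => R2 ⟨ha.1, ha.2⟩ ⟨hb.1, hb.2⟩, fun ha hb => R3 ⟨ha.1, ha.2⟩ ⟨hb.1, hb.2⟩,
    fun ha => R7 ⟨ha.1, ha.2⟩, R8, ⟨⟨e1.1, e1.2⟩, e2⟩, hs⟩⟩⟩

end Pool.Agent.H.MP_ba91e3_al
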