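import Pool.Agent.H.MP_ba91e3_al.A

set_option autoImplicit false

namespace Pool.Agent.H.MP_ba91e3_al

open unitInterval

variable {A : Type} [CStarAlgebra A]

section Pol
variable [PartialOrder A] [StarOrderedRing A]

noncomputable def pol (y : A) : A := y * Ring.inverse (CFC.sqrt (star y * y))

lemma sq_unit {y : A} (hy : IsUnit y) : IsUnit (CFC.sqrt (star y * y)) :=
  (CFC.isUnit_sqrt_iff _ (star_mul_self_nonneg y)).2 (hy.star.mul hy)

lemma pol_unitary {y : A} (hy : IsUnit y) : pol y ∈ unitary A := by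
  have h1 := sq_unit hy
  have h2 : star (Ring.inverse (CFC.sqrt (star y * y))) = Ring.inverse (CFC.sqrt (star y * y)) := by
    rw [← Ring.inverse_star, (CFC.sqrt_nonneg _).star_eq]
  have h3 : star (pol y) * pol y = 1 := by
    rw [pol, star_mul, h2, mul_assoc, ← mul_assoc (star y)]
    nth_rewrite 2 [← CFC.sqrt_mul_sqrt_self (star y * y) (star_mul_self_nonneg y)]
    rw [mul_assoc, Ring.mul_inverse_cancel _ h1, mul_one, Ring.inverse_mul_cancel _ h1]
  have h4 : IsUnit (pol y) := hy.mul h1.ringInverse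
  refine ⟨h3, ?_⟩
  obtain ⟨u, hu⟩ := h4
  rw [← hu] at h3 ⊢
  rw [Units.eq_inv_of_mul_eq_one_right h3, Units.mul_inv]

lemma pol_mul {y a b : A} (hy : IsUnit y) (ha : star a = a) (hb : star b = b)
    (h : y * a = b * y) : pol y * a = b * pol y := by
  have h1 : Commute (star y * y) a := by
    have : a * star y = star y * b := by rw [← ha, ← star_mul, h, star_mul, hb]
    rw [Commute, SemiconjBy, mul_assoc, h, ← mul_assoc, ← this, mul_assoc]
  have h2 : Commute (CFC.sqrt (star y * y)) a := by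
    rw [CFC.sqrt_eq_cfc]; exact h1.cfc_nnreal _
  obtain ⟨u, hu⟩ := sq_unit hy
  rw [pol, ← hu, Ring.inverse_unit, mul_assoc, ((hu ▸ h2 : Commute (u : A) a).units_inv_left).eq,
    ← mul_assoc, h, mul_assoc]

lemma pol_cont {X : Type} [TopologicalSpace X] {y : X → A} (hc : Continuous y)
    (hy : ∀ x, IsUnit (y x)) : Continuous fun x => pol (y x) := by
  have h1 : Continuous fun x => CFC.sqrt (star (y x) * y x) :=
    CFC.continuousOn_sqrt.comp_continuous (by fun_prop) fun x => star_mul_self_nonneg _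
  refine hc.mul (continuous_iff_continuousAt.2 fun x => ?_)
  obtain ⟨u, hu⟩ := sq_unit (hy x)
  exact ContinuousAt.comp (f := fun x => CFC.sqrt (star (y x) * y x))
    (hu ▸ NormedRing.inverse_continuousAt u) h1.continuousAt

lemma pol_one : pol (1 : A) = 1 := by simp [pol]

end Pol

lemma kato_unit {a b : A} (ha : IsStarProjection a) (h : ‖b - a‖ < 1) :
    IsUnit (b * a + (1 - b) * (1 - a)) := by
  have u : 1 - 2 * a ∈ unitary A := by
    have e : star (1 - 2 * a) = 1 - 2 * a := by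
      rw [star_sub, star_one, star_mul, ha.2.star_eq, star_ofNat, two_mul, mul_two]
    have : (1 - 2 * a) * (1 - 2 * a) = 1 := by
      simp only [two_mul, mul_sub, sub_mul, mul_add, add_mul, ha.1.eq, one_mul, mul_one]; abel
    exact ⟨by rw [e, this], by rw [e, this]⟩
  have e : b * a + (1 - b) * (1 - a) = 1 - (b - a) * (1 - 2 * a) := by
    simp only [two_mul, mul_sub, sub_mul, mul_add, ha.1.eq, one_mul, mul_one]; abel
  rw [e]
  exact isUnit_one_sub_of_norm_lt_one (by rwa [CStarRing.norm_mul_mem_unitary _ u])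

theorem lift_unitary {a : I → A} (hc : Continuous a) (ha : ∀ t, IsStarProjection (a t)) :
    ∃ u : I → A, Continuous u ∧ u 0 = 1 ∧ ∀ t, u t ∈ unitary A ∧ u t * a 0 = a t * u t := by
  let := CStarAlgebra.spectralOrder A
  have := CStarAlgebra.spectralOrderedRing A
  obtain ⟨t, t0, tm, ⟨N, hN⟩, ht⟩ := exists_monotone_Icc_subset_open_cover_unitInterval
    (c := fun i : I => {τ | ‖a τ - a i‖ < 1 / 2})
    (fun i => isOpen_lt (by fun_prop) continuous_const)
    (fun τ _ => Set.mem_iUnion.2 ⟨τ, by simp⟩)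
  have key : ∀ n, ∃ u : I → A, Continuous u ∧ u 0 = 1 ∧
      ∀ τ, u τ ∈ unitary A ∧ u τ * a 0 = a (min τ (t n)) * u τ := by
    intro n
    induction n with
    | zero => exact ⟨fun _ => 1, continuous_const, rfl, fun τ => ⟨one_mem _, by simp [t0]⟩⟩
    | succ n ih =>
      obtain ⟨u, u1, u2, u3⟩ := ih
      let y : I → A := fun τ => a (min τ (t (n + 1))) * a (min τ (t n)) +
        (1 - a (min τ (t (n + 1)))) * (1 - a (min τ (t n)))
      have hy : ∀ τ, IsUnit (y τ) := by
        intro τ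
        refine kato_unit (ha _) ?_
        rcases le_total τ (t n) with h | h
        · rw [min_eq_left h, min_eq_left (h.trans (tm n.le_succ))]; simp
        · obtain ⟨i, hi⟩ := ht n
          have h1 : ‖a (min τ (t (n + 1))) - a i‖ < 1 / 2 :=
            hi ⟨le_min h (tm n.le_succ), min_le_right _ _⟩
          have h2 : ‖a (t n) - a i‖ < 1 / 2 := hi ⟨le_rfl, tm n.le_succ⟩
          rw [min_eq_right h]
          have := norm_sub_le_norm_sub_add_norm_sub (a (min τ (t (n + 1)))) (a i) (a (t n))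
          rw [norm_sub_rev (a i)] at this
          linarith
      refine ⟨fun τ => pol (y τ) * u τ, (pol_cont (by fun_prop) hy).mul u1, ?_,
        fun τ => ⟨mul_mem (pol_unitary (hy τ)) (u3 τ).1, ?_⟩⟩
      · have : y 0 = 1 := by
          simp only [y, min_eq_left (show (0 : I) ≤ _ from nonneg'), mul_sub, sub_mul, (ha 0).1.eq]
          simp
        simp only [this, pol_one, u2, mul_one]
      · rw [mul_assoc, (u3 τ).2, ← mul_assoc, pol_mul (hy τ) (ha _).2.star_eq (ha _).2.star_eq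
          (b := a (min τ (t (n + 1)))), mul_assoc]
        simp only [y, add_mul, mul_add, mul_assoc, (ha _).1.eq, sub_mul, mul_sub, one_mul, mul_one,
          ← mul_assoc (a (min τ (t (n + 1))))]
        abel
  obtain ⟨u, u1, u2, u3⟩ := key N
  refine ⟨u, u1, u2, fun τ => ?_⟩
  have := u3 τ
  rwa [hN N le_rfl, min_eq_left le_one'] at this

namespace RD
variable (D : RD A)

lemma R1 {w a b : A} (h1 : star w * w = a) (h2 : w * star w = b) (ha : a * a = a) (hf : D.Fn a) :
    D.Fn b ∧ D.rk b = D.rk a := by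
  have e1 : b = w * a * star w := by rw [pi_mul h1 ha, h2]
  have e2 : a = star w * b * w := by rw [← h2, ← mul_assoc, h1, mul_assoc, h1, ha]
  have := D.sub hf w (star w)
  rw [← e1] at this
  have h3 := (D.sub this.1 (star w) w).2
  rw [← e2] at h3
  exact ⟨this.1, le_antisymm this.2 h3⟩

lemma Fn0 : D.Fn 0 := by simpa using (D.sub D.he.2.1 0 0).1

lemma rk0 : D.rk 0 = 0 := by
  have := D.R3 (.zero A) (.zero A) (by simp) D.Fn0 D.Fn0
  rw [add_zero] at this
  omega

lemma path_rk {a : I → A} (hc : Continuous a) (ha : ∀ t, IsStarProjection (a t))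
    (hf : D.Fn (a 0)) (t : I) : D.Fn (a t) ∧ D.rk (a t) = D.rk (a 0) := by
  obtain ⟨u, -, -, hu⟩ := lift_unitary hc ha
  refine D.R1 (w := u t * a 0) ?_ ?_ (ha 0).1 hf
  · rw [star_mul, mul_assoc, ← mul_assoc (star (u t)), (hu t).1.1, one_mul, (ha 0).2.star_eq,
      (ha 0).1]
  · rw [(hu t).2, star_mul, mul_assoc, ← mul_assoc (u t), (hu t).1.2, one_mul, (ha t).2.star_eq,
      (ha t).1]

theorem lift_pi {a q : I → A} (hc : Continuous a) (ha : ∀ t, IsStarProjection (a t))
    (hc' : Continuous q) (hq : ∀ t, IsStarProjection (q t)) (hf : D.Fn (q 0)) {w0 w1 : A}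
    (h0 : star w0 * w0 = a 0 ∧ w0 * star w0 = q 0) (h1 : star w1 * w1 = a 1 ∧ w1 * star w1 = q 1) :
    ∃ w : I → A, Continuous w ∧ w 0 = w0 ∧ w 1 = w1 ∧
      ∀ t, star (w t) * w t = a t ∧ w t * star (w t) = q t := by
  obtain ⟨u, u1, u2, u3⟩ := lift_unitary hc ha
  obtain ⟨y, y1, y2, y3⟩ := lift_unitary hc' hq
  have ua : ∀ t, u t * a 0 * star (u t) = a t := fun t => by
    rw [(u3 t).2, mul_assoc, (u3 t).1.2, mul_one]
  have yq : ∀ t, y t * q 0 * star (y t) = q t := fun t => by
    rw [(y3 t).2, mul_assoc, (y3 t).1.2, mul_one]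
  have ua' : star (u 1) * a 1 * u 1 = a 0 := by
    rw [mul_assoc, ← (u3 1).2, ← mul_assoc, (u3 1).1.1, one_mul]
  have yq' : star (y 1) * q 1 * y 1 = q 0 := by
    rw [mul_assoc, ← (y3 1).2, ← mul_assoc, (y3 1).1.1, one_mul]
  have p0 : w0 * a 0 = w0 := pi_mul h0.1 (ha 0).1
  have p1 : w1 * a 1 = w1 := pi_mul h1.1 (ha 1).1
  have p0' : star w0 * q 0 = star w0 := pi_mul (by rw [star_star, h0.2]) (hq 0).1
  have p0'' : q 0 * w0 = w0 := by
    rw [← star_star (q 0 * w0), star_mul, (hq 0).2.star_eq, p0', star_star]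
  have c1 : ∀ x, y 1 * (star (y 1) * x) = x := fun x => by rw [← mul_assoc, (y3 1).1.2, one_mul]
  have c2 : ∀ t x, star (y t) * (y t * x) = x := fun t x => by
    rw [← mul_assoc, (y3 t).1.1, one_mul]
  have c3 : ∀ t x, star (u t) * (u t * x) = x := fun t x => by
    rw [← mul_assoc, (u3 t).1.1, one_mul]
  obtain ⟨ζ, z1, z2, z3, z4⟩ := D.R7 (z := star (y 1) * w1 * u 1 * star w0) (hq 0) hf (by
      simp only [star_mul, star_star, mul_assoc, c1]
      rw [← mul_assoc (star w1), h1.1, ← mul_assoc (a 1), ← mul_assoc (star (u 1)),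
        ← mul_assoc (star (u 1)), ua', ← mul_assoc, p0, h0.2]) (by
      simp only [star_mul, star_star, mul_assoc]
      rw [← mul_assoc (star w0), h0.1, ← mul_assoc (a 0), ← mul_assoc (u 1), ← mul_assoc (u 1), ua,
        ← mul_assoc w1, p1, ← mul_assoc w1, h1.2, ← mul_assoc, yq'])
  refine ⟨fun t => y t * ζ t * w0 * star (u t), by fun_prop, by simp [y2, u2, z2, p0''], ?_,
    fun t => ⟨?_, ?_⟩⟩
  · simp only [z3, mul_assoc, c1]
    rw [← mul_assoc (star w0), h0.1, ← mul_assoc (u 1), ua, p1]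
  · simp only [star_mul, star_star, mul_assoc, c2]
    rw [← mul_assoc (star (ζ t)), (z4 t).1, ← mul_assoc (q 0), p0'', ← mul_assoc (star w0), h0.1,
      ← mul_assoc, ua]
  · simp only [star_mul, star_star, mul_assoc, c3]
    rw [← mul_assoc w0, h0.2, ← mul_assoc (ζ t), pi_mul (z4 t).1 (hq 0).1, ← mul_assoc (ζ t),
      (z4 t).2, ← mul_assoc, yq]

theorem path_proj {p q : A} (hp : IsStarProjection p) (hq : IsStarProjection q) (fp : D.Fn p)
    (fq : D.Fn q) (h : D.rk p = D.rk q) :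
    ∃ γ : I → A, Continuous γ ∧ γ 0 = p ∧ γ 1 = q ∧ ∀ t, IsStarProjection (γ t) := by
  obtain ⟨F, f1, f2, f3, f4⟩ := D.R8 fp fq
  have k : ∀ p : A, IsStarProjection p → D.Fn p → F * p = p → IsStarProjection (F - p) ∧
      D.Fn (F - p) ∧ D.rk F = D.rk p + D.rk (F - p) ∧ p * F = p := by
    intro p hp fp h
    have h' : p * F = p := by
      rw [← star_star (p * F), star_mul, hp.2.star_eq, f1.2.star_eq, h, hp.2.star_eq]
    have a1 : IsStarProjection (F - p) := hp.sub_of_mul_eq_left f1 h'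
    have a2 : D.Fn (F - p) := by
      have := (D.sub f2 1 (1 - p)).1
      rwa [one_mul, mul_sub, mul_one, h] at this
    have := D.R3 hp a1 (by rw [mul_sub, h', hp.1, sub_self]) fp a2
    rw [add_sub_cancel] at this
    exact ⟨a1, a2, this, h'⟩
  obtain ⟨a1, a2, a3, a4⟩ := k p hp fp f3
  obtain ⟨b1, b2, b3, b4⟩ := k q hq fq f4
  obtain ⟨w, w1, w2⟩ := D.R2 hp hq fp fq h
  obtain ⟨v, v1, v2⟩ := D.R2 a1 b1 a2 b2 (by omega)
  have c1 : w * p = w := pi_mul w1 hp.1
  have c2 : v * (F - p) = v := pi_mul v1 a1.1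
  have c3 : star w * q = star w := pi_mul (by rw [star_star, w2]) hq.1
  have c4 : star v * (F - q) = star v := pi_mul (by rw [star_star, v2]) b1.1
  have c5 : v * p = 0 := by rw [← c2, mul_assoc, sub_mul, f3, hp.1, sub_self, mul_zero]
  have c6 : star v * q = 0 := by rw [← c4, mul_assoc, sub_mul, f4, hq.1, sub_self, mul_zero]
  have c7 : q * w = w := by rw [← star_star (q * w), star_mul, hq.2.star_eq, c3, star_star]
  have c8 : p * star w = star w := by rw [← hp.2.star_eq, ← star_mul, c1]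
  have d1 : star v * w = 0 := by rw [← c7, ← mul_assoc, c6, zero_mul]
  have d2 : star w * v = 0 := by rw [← star_star v, ← star_mul, d1, star_zero]
  have d3 : v * star w = 0 := by rw [← c8, ← mul_assoc, c5, zero_mul]
  have d4 : w * star v = 0 := by rw [← star_star w, ← star_mul, d3, star_zero]
  obtain ⟨ζ, z1, z2, z3, z4⟩ := D.R7 (z := w + v) f1 f2
    (by simp [mul_add, add_mul, w1, v1, d1, d2]) (by simp [mul_add, add_mul, w2, v2, d3, d4])
  refine ⟨fun t => ζ t * p * star (ζ t), by fun_prop, by simp only [z2, f1.2.star_eq, f3, a4],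
    by simp only [z3, add_mul, c1, c5, add_zero, star_add, mul_add, w2, d4], fun t => ⟨?_, ?_⟩⟩
  · show _ * _ = _
    simp only [mul_assoc]
    rw [← mul_assoc (star (ζ t)), (z4 t).1, ← mul_assoc F, f3, ← mul_assoc p, hp.1]
  · show star _ = _
    simp only [star_mul, star_star, hp.2.star_eq, mul_assoc]

lemma near {a f : A} (ha : IsStarProjection a) (hf : D.Fn f) (h : ‖a - f‖ < 1) : D.Fn a := by
  have h1 : ‖a * (a - f) * a‖ < 1 := by
    have := ha.norm_le
    calc _ ≤ ‖a‖ * ‖a - f‖ * ‖a‖ := norm_mul₃_le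
      _ ≤ 1 * ‖a - f‖ * 1 := by gcongr
      _ < 1 := by simpa using h
  obtain ⟨y, hy⟩ := isUnit_one_sub_of_norm_lt_one h1
  have e : (y : A) * a = a * f * a := by
    rw [hy, sub_mul, one_mul, mul_assoc _ a a, ha.1, mul_sub, ha.1, sub_mul, ha.1]; abel
  have := (D.sub hf ((y⁻¹ : Aˣ) * a) a).1
  rwa [mul_assoc, mul_assoc, ← mul_assoc a, ← e, Units.inv_mul_cancel_left] at this

end RD

end Pool.Agent.H.MP_ba91e3_al
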