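import Pool.Agent.H.MP_ba91e3_al.B

set_option autoImplicit false

namespace Pool.Agent.H.MP_ba91e3_al

open unitInterval Matrix

variable {A : Type} [CStarAlgebra A]

section Phi
variable {ι κ μ : Type} [Fintype ι] [Fintype κ] [Fintype μ]

def Iso [DecidableEq ι] (a : ι → A) : Prop := ∀ i j, star (a i) * a j = if i = j then 1 else 0

def Φ (a : ι → A) (b : κ → A) (v : Matrix ι κ A) : A := ∑ i, ∑ j, a i * v i j * star (b j)

lemma ΦL [DecidableEq ι] {a : ι → A} (ha : Iso a) (b : κ → A) (v : Matrix ι κ A) (i : ι) :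
    star (a i) * Φ a b v = ∑ j, v i j * star (b j) := by
  simp only [Φ, Finset.mul_sum, ← mul_assoc, ha i]
  rw [Finset.sum_eq_single i (fun l _ hl => by simp [hl.symm]) (by simp)]
  simp

lemma Φ_mul [DecidableEq κ] (a : ι → A) {b : κ → A} (hb : Iso b) (c : μ → A) (v : Matrix ι κ A)
    (w : Matrix κ μ A) : Φ a b v * Φ b c w = Φ a c (v * w) := by
  rw [Φ.eq_1 a b, Φ.eq_1 a c, Finset.sum_mul]
  refine Finset.sum_congr rfl fun i _ => ?_
  simp only [Finset.sum_mul, mul_assoc, ΦL hb, Matrix.mul_apply, Finset.mul_sum]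
  exact Finset.sum_comm

lemma Φ_star (a : ι → A) (b : κ → A) (v : Matrix ι κ A) : star (Φ a b v) = Φ b a vᴴ := by
  simp only [Φ, star_sum, star_mul, star_star, conjTranspose_apply, mul_assoc]
  exact Finset.sum_comm

lemma Φ_proj [DecidableEq ι] {a : ι → A} (ha : Iso a) {p : Matrix ι ι A} (h1 : p * p = p)
    (h2 : pᴴ = p) : IsStarProjection (Φ a a p) :=
  ⟨(Φ_mul a ha a p p).trans (by rw [h1]), (Φ_star a a p).trans (by rw [h2])⟩

lemma Φ_orth {a : ι → A} {b : κ → A} (h : ∀ i j, star (a i) * b j = 0) (p : Matrix ι ι A)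
    (q : Matrix κ κ A) : Φ a a p * Φ b b q = 0 := by
  simp only [Φ, Finset.sum_mul, Finset.mul_sum, mul_assoc]
  simp only [← mul_assoc (star (a _)), h]
  simp

lemma RD.Φ_eqv (D : RD A) [DecidableEq ι] [DecidableEq κ] {a : ι → A} (ha : Iso a) {b : κ → A}
    (hb : Iso b) {v : Matrix κ ι A} {p : Matrix ι ι A} {q : Matrix κ κ A} (h1 : vᴴ * v = p)
    (h2 : v * vᴴ = q) (hp : p * p = p) (hf : D.Fn (Φ a a p)) :
    D.Fn (Φ b b q) ∧ D.rk (Φ b b q) = D.rk (Φ a a p) :=
  D.R1 (w := Φ b a v) (by rw [Φ_star, Φ_mul _ hb, h1]) (by rw [Φ_star, Φ_mul _ ha, h2])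
    (by rw [Φ_mul _ ha, hp]) hf

end Phi

def Cond {R : Type} [NonUnitalRing R] [StarRing R] {k : ℕ} (a : Fin k → Fin k → R) (q : R)
    (w : Fin k → R) : Prop :=
  (∀ i j, star (w i) * w j = a i j) ∧ ∑ j, w j * star (w j) = q

namespace RD
variable (D : RD A)

def sk (k : ℕ) : Fin k → A := fun i => D.s i

lemma iso_sk (k : ℕ) : Iso (D.sk k) := fun i j => by simp [sk, D.hs, Fin.val_inj]

def Ψ {k : ℕ} (a : Fin k → Fin k → A) : A := Φ (D.sk k) (D.sk k) (of a)

def PM {k : ℕ} (a : Fin k → Fin k → A) : Prop := of a * of a = of a ∧ (of a)ᴴ = of a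

lemma Ψ_proj {k : ℕ} {a : Fin k → Fin k → A} (h : PM a) : IsStarProjection (D.Ψ a) :=
  Φ_proj (D.iso_sk k) h.1 h.2

lemma rk_orth {k l : ℕ} {a : Fin k → A} {b : Fin l → A} (ha : Iso a) (hb : Iso b)
    (h : ∀ i j, star (a i) * b j = 0) {p : Fin k → Fin k → A} {q : Fin l → Fin l → A} (hp : PM p)
    (hq : PM q) (fp : D.Fn (D.Ψ p)) (fq : D.Fn (D.Ψ q)) :
    D.rk (Φ a a (of p) + Φ b b (of q)) = D.rk (D.Ψ p) + D.rk (D.Ψ q) := by
  have a1 := D.Φ_eqv (D.iso_sk k) ha (v := of p) (by rw [hp.2, hp.1]) (by rw [hp.2, hp.1]) hp.1 fp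
  have a2 := D.Φ_eqv (D.iso_sk l) hb (v := of q) (by rw [hq.2, hq.1]) (by rw [hq.2, hq.1]) hq.1 fq
  rw [D.R3 (Φ_proj ha hp.1 hp.2) (Φ_proj hb hq.1 hq.2) (Φ_orth h _ _) a1.1 a2.1, a1.2, a2.2]
  rfl

def row {k : ℕ} (w : Fin k → A) : A := ∑ j, w j * star (D.sk k j)

lemma row_mul {k : ℕ} (w : Fin k → A) (i : Fin k) : D.row w * D.sk k i = w i := by
  simp only [row, Finset.sum_mul, mul_assoc, D.iso_sk k _ i]
  rw [Finset.sum_eq_single i (fun l _ hl => by simp [hl]) (by simp)]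
  simp

lemma cond_row {k : ℕ} {a : Fin k → Fin k → A} {q : A} {w : Fin k → A} (h : Cond a q w) :
    star (D.row w) * D.row w = D.Ψ a ∧ D.row w * star (D.row w) = q := by
  constructor
  · simp only [row, star_sum, star_mul, star_star, Finset.sum_mul, Finset.mul_sum, Ψ, Φ, of_apply,
      ← h.1, mul_assoc]
    exact Finset.sum_comm
  · rw [← h.2]
    nth_rewrite 2 [row]
    simp only [star_sum, star_mul, star_star, Finset.mul_sum, ← mul_assoc, row_mul]

lemma row_cond {k : ℕ} {a : Fin k → Fin k → A} (ha : PM a) {q W : A} (h1 : star W * W = D.Ψ a)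
    (h2 : W * star W = q) : Cond a q fun j => W * D.sk k j := by
  have e : ∀ j, D.Ψ a * D.sk k j = ∑ i, D.sk k i * a i j := by
    intro j
    simp only [Ψ, Φ, Finset.sum_mul, mul_assoc, D.iso_sk k _ j]
    refine Finset.sum_congr rfl fun i _ => ?_
    rw [Finset.sum_eq_single j (fun l _ hl => by simp [hl]) (by simp)]
    simp
  constructor
  · intro i j
    rw [star_mul, mul_assoc, ← mul_assoc (star W), h1, e, Finset.mul_sum,
      Finset.sum_eq_single i (fun l _ hl => by rw [← mul_assoc, D.iso_sk]; simp [hl.symm]) (by simp),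
      ← mul_assoc, D.iso_sk]
    simp
  · have h3 : W * D.Ψ a = W := pi_mul h1 (D.Ψ_proj ha).1
    have h4 : ∑ j, D.Ψ a * D.sk k j * star (D.sk k j) = D.Ψ a := by
      simp only [e, Finset.sum_mul]
      exact Finset.sum_comm
    rw [← h2]
    conv_rhs => enter [1]; rw [← h3, ← h4]
    conv_lhs => enter [2, j, 1]; rw [← h3]
    simp only [star_mul, Finset.mul_sum, Finset.sum_mul, mul_assoc]

include D in
lemma cond_left {k : ℕ} {a : Fin k → Fin k → A} {q : A} {w : Fin k → A} (h : Cond a q w)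
    (hq : IsStarProjection q) (j : Fin k) : q * w j = w j ∧ ‖w j‖ ≤ 1 := by
  have h1 : star (D.row w) * q = star (D.row w) :=
    pi_mul (by rw [star_star, (D.cond_row h).2]) hq.1
  have h2 : q * D.row w = D.row w := by
    rw [← star_star (q * _), star_mul, hq.2.star_eq, h1, star_star]
  refine ⟨by rw [← D.row_mul w j, ← mul_assoc, h2], ?_⟩
  have a1 : ‖D.row w‖ * ‖D.row w‖ ≤ 1 := by
    rw [← CStarRing.norm_self_mul_star, (D.cond_row h).2]; exact hq.norm_le
  have a2 : ‖D.sk k j‖ * ‖D.sk k j‖ ≤ 1 := by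
    rw [← CStarRing.norm_star_mul_self, D.iso_sk, if_pos rfl]; exact (IsStarProjection.one A).norm_le
  have := norm_mul_le (D.row w) (D.sk k j)
  rw [D.row_mul] at this
  have b1 : ‖D.row w‖ ≤ 1 := by nlinarith [norm_nonneg (D.row w)]
  have b2 : ‖D.sk k j‖ ≤ 1 := by nlinarith [norm_nonneg (D.sk k j)]
  exact this.trans (mul_le_one₀ b1 (norm_nonneg _) b2)

include D in
lemma cond_PM {k : ℕ} {a : Fin k → Fin k → A} {q : A} {w : Fin k → A} (h : Cond a q w)
    (hq : IsStarProjection q) : PM a := by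
  constructor
  · ext i j
    simp only [Matrix.mul_apply, of_apply, ← h.1]
    conv_rhs => rw [← (D.cond_left h hq j).1, ← h.2]
    simp only [Finset.mul_sum, Finset.sum_mul, mul_assoc]
  · ext i j
    simp [← h.1]

lemma cond_rk {k : ℕ} {a : Fin k → Fin k → A} {q : A} {w : Fin k → A} (h : Cond a q w)
    (hq : IsStarProjection q) (hf : D.Fn q) : D.rk (D.Ψ a) = D.rk q :=
  (D.R1 (w := star (D.row w)) (by rw [star_star, (D.cond_row h).2])
    (by rw [star_star, (D.cond_row h).1]) hq.1 hf).2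

lemma cond_ex {k : ℕ} {a : Fin k → Fin k → A} (ha : PM a) (fa : D.Fn (D.Ψ a)) {q : A}
    (hq : IsStarProjection q) (hf : D.Fn q) (h : D.rk (D.Ψ a) = D.rk q) : ∃ w, Cond a q w := by
  obtain ⟨W, h1, h2⟩ := D.R2 (D.Ψ_proj ha) hq fa hf h
  exact ⟨_, D.row_cond ha h1 h2⟩

lemma Ψ_cont {k : ℕ} {a : I → Fin k → Fin k → A} (hc : ∀ i j, Continuous fun t => a t i j) :
    Continuous fun t => D.Ψ (a t) := by
  simp only [Ψ, Φ, of_apply]
  fun_prop

lemma cond_path {k : ℕ} {a : I → Fin k → Fin k → A} (hc : ∀ i j, Continuous fun t => a t i j)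
    (ha : ∀ t, PM (a t)) {q : I → A} (hc' : Continuous q) (hq : ∀ t, IsStarProjection (q t))
    (hf : D.Fn (q 0)) {w0 w1 : Fin k → A} (h0 : Cond (a 0) (q 0) w0) (h1 : Cond (a 1) (q 1) w1) :
    ∃ w : I → Fin k → A, Continuous w ∧ w 0 = w0 ∧ w 1 = w1 ∧ ∀ t, Cond (a t) (q t) (w t) := by
  obtain ⟨W, a1, a2, a3, a4⟩ := D.lift_pi (D.Ψ_cont hc) (fun t => D.Ψ_proj (ha t)) hc' hq hf
    (D.cond_row h0) (D.cond_row h1)
  exact ⟨fun t j => W t * D.sk k j, by fun_prop, funext fun j => by simp only [a2, row_mul],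
    funext fun j => by simp only [a3, row_mul], fun t => D.row_cond (ha t) (a4 t).1 (a4 t).2⟩

noncomputable def J : A × A →⋆ₙₐ[ℂ] A where
  toFun x := D.s 0 * x.1 * star (D.s 0) + D.s 1 * x.2 * star (D.s 1)
  map_smul' c x := by simp
  map_zero' := by simp
  map_add' x y := by simp only [Prod.fst_add, Prod.snd_add, mul_add, add_mul]; abel
  map_mul' x y := by
    simp only [Prod.fst_mul, Prod.snd_mul, mul_add, add_mul, mul_assoc]
    simp [← mul_assoc (star (D.s _)), D.hs]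
  map_star' x := by simp [mul_assoc]

lemma J_cont : Continuous D.J := by
  show Continuous fun x : A × A => D.s 0 * x.1 * star (D.s 0) + D.s 1 * x.2 * star (D.s 1)
  fun_prop

lemma rk_J {k : ℕ} {p q : Fin k → Fin k → A} (hp : PM p) (hq : PM q) (fp : D.Fn (D.Ψ p))
    (fq : D.Fn (D.Ψ q)) :
    D.rk (D.Ψ fun i j => D.J (p i j, q i j)) = D.rk (D.Ψ p) + D.rk (D.Ψ q) := by
  have iso : ∀ m n i j, star (D.sk k i * D.s m) * (D.sk k j * D.s n) =
      if m = n then if i = j then 1 else 0 else 0 := by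
    intro m n i j
    rw [star_mul, mul_assoc, ← mul_assoc (star (D.sk k i)), D.iso_sk]
    split_ifs <;> simp [D.hs, *]
  rw [← D.rk_orth (a := fun i => D.sk k i * D.s 0) (b := fun i => D.sk k i * D.s 1)
    (fun i j => by simp only [iso, if_true]) (fun i j => by simp only [iso, if_true])
    (fun i j => by rw [iso, if_neg zero_ne_one]) hp hq fp fq]
  congr 1
  simp [Ψ, Φ, J, mul_add, add_mul, Finset.sum_add_distrib, mul_assoc]

lemma J_proj {p q : A} (hp : IsStarProjection p) (hq : IsStarProjection q) (fp : D.Fn p)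
    (fq : D.Fn q) :
    IsStarProjection (D.J (p, q)) ∧ D.Fn (D.J (p, q)) ∧ D.rk (D.J (p, q)) = D.rk p + D.rk q := by
  have k : ∀ m, ∀ p : A, IsStarProjection p → D.Fn p →
      IsStarProjection (D.s m * p * star (D.s m)) ∧ D.Fn (D.s m * p * star (D.s m)) ∧
        D.rk (D.s m * p * star (D.s m)) = D.rk p := by
    intro m p hp fp
    refine ⟨⟨?_, ?_⟩, D.R1 (w := D.s m * p) ?_ ?_ hp.1 fp⟩
    · show _ * _ = _
      simp [mul_assoc, ← mul_assoc (star (D.s m)), D.hs, ← mul_assoc p, hp.1.eq]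
    · show star _ = _
      simp [mul_assoc, hp.2.star_eq]
    · simp [mul_assoc, ← mul_assoc (star (D.s m)), D.hs, hp.1.eq, hp.2.star_eq]
    · simp [mul_assoc, ← mul_assoc p, hp.1.eq, hp.2.star_eq]
  have o : D.s 0 * p * star (D.s 0) * (D.s 1 * q * star (D.s 1)) = 0 := by
    simp [mul_assoc, ← mul_assoc (star (D.s 0)), D.hs]
  obtain ⟨a1, a2, a3⟩ := k 0 p hp fp
  obtain ⟨b1, b2, b3⟩ := k 1 q hq fq
  exact ⟨a1.add b1 o, D.add a2 b2, (D.R3 a1 b1 o a2 b2).trans (by rw [a3, b3])⟩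

lemma ex_rk (m : ℕ) : ∃ p, IsStarProjection p ∧ D.Fn p ∧ D.rk p = m := by
  induction m with
  | zero => exact ⟨0, .zero A, D.Fn0, D.rk0⟩
  | succ m ih =>
    obtain ⟨p, a, b, c⟩ := ih
    have := D.J_proj a D.he.1 b D.he.2.1
    exact ⟨_, this.1, this.2.1, by rw [this.2.2, c, D.he.2.2]⟩

def K (a : A) : Prop := a ∈ closure {f | D.Fn f ∧ D.Fn (star f)}

lemma K_add {a b : A} (ha : D.K a) (hb : D.K b) : D.K (a + b) :=
  map_mem_closure₂ continuous_add ha hb fun _ h _ h' =>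
    ⟨D.add h.1 h'.1, by rw [star_add]; exact D.add h.2 h'.2⟩

lemma K_mul {a : A} (ha : D.K a) (x y : A) : D.K (x * a * y) :=
  map_mem_closure (f := fun a => x * a * y) (by fun_prop) ha fun _ h =>
    ⟨(D.sub h.1 _ _).1, by rw [star_mul, star_mul, ← mul_assoc]; exact (D.sub h.2 _ _).1⟩

lemma K_star {a : A} (ha : D.K a) : D.K (star a) :=
  map_mem_closure continuous_star ha fun _ h => ⟨h.2, by rw [star_star]; exact h.1⟩

lemma K_proj {a : A} (ha : IsStarProjection a) (h : D.Fn a) : D.K a :=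
  subset_closure ⟨h, by rwa [ha.2.star_eq]⟩

lemma K_Ψ {k : ℕ} {a : Fin k → Fin k → A} (h : ∀ i j, D.K (a i j)) (ha : PM a) :
    D.Fn (D.Ψ a) := by
  have z := D.K_proj (.zero A) D.Fn0
  have : D.K (D.Ψ a) := by
    unfold Ψ Φ
    exact Finset.sum_induction _ D.K (fun _ _ => D.K_add) z fun i _ =>
      Finset.sum_induction _ D.K (fun _ _ => D.K_add) z fun j _ => D.K_mul (h i j) _ _
  obtain ⟨f, f1, f2⟩ := Metric.mem_closure_iff.1 this 1 one_pos
  exact D.near (D.Ψ_proj ha) f1.1 (by rwa [dist_eq_norm] at f2)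

end RD

end Pool.Agent.H.MP_ba91e3_al
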