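import Pool.Agent.H.MP_ba91e3_al.C

set_option autoImplicit false

namespace Pool.Agent.H.MP_ba91e3_al

open unitInterval Filter Topology
open scoped Classical

inductive Tm (M : Type) : Type
  | p (x : M)
  | zero
  | add (s t : Tm M)
  | mul (s t : Tm M)
  | star (s : Tm M)
  | smul (c : ℂ) (s : Tm M)
  | lim (s : ℕ → Tm M)
  | v (k : ℕ) (t : Fin k → Fin k → Tm M) (x : M) (j : Fin k)

def Tm.map {M N : Type} (f : M → N) : Tm M → Tm N
  | .p x => .p (f x)
  | .zero => .zero
  | .add s t => .add (map f s) (map f t)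
  | .mul s t => .mul (map f s) (map f t)
  | .star s => .star (map f s)
  | .smul c s => .smul c (map f s)
  | .lim s => .lim fun n => map f (s n)
  | .v k t x j => .v k (fun i j => map f (t i j)) (f x) j

lemma Tm.map_id {M : Type} (t : Tm M) : t.map (fun x => x) = t := by
  induction t <;> simp [Tm.map, *]

lemma Tm.map_map {M N P : Type} (f : M → N) (g : N → P) (t : Tm M) :
    (t.map f).map g = t.map fun x => g (f x) := by
  induction t <;> simp [Tm.map, *]

variable {A : Type} [CStarAlgebra A] (D : RD A) (M : Type) [AddCommMonoid M]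

@[ext] structure Md where
  r : M →+ ℕ
  p : M → A
  hp : ∀ x, IsStarProjection (p x) ∧ D.Fn (p x) ∧ D.rk (p x) = r x
  w : ∀ k : ℕ, (Fin k → Fin k → Tm M) → M → Fin k → A

noncomputable def eff {k : ℕ} (a : Fin k → Fin k → A) (q : A) (w : Fin k → A) : Fin k → A :=
  if Cond a q w then w else Classical.epsilon (Cond a q)

lemma eff_cond {k : ℕ} {a : Fin k → Fin k → A} {q : A} (h : ∃ w, Cond a q w) (w : Fin k → A) :
    Cond a q (eff a q w) := by
  unfold eff
  split_ifs with h1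
  exacts [h1, Classical.epsilon_spec h]

variable {D M}

noncomputable def ev (ρ : Md D M) : Tm M → A
  | .p x => ρ.p x
  | .zero => 0
  | .add s t => ev ρ s + ev ρ t
  | .mul s t => ev ρ s * ev ρ t
  | .star s => star (ev ρ s)
  | .smul c s => c • ev ρ s
  | .lim s => limUnder atTop fun n => ev ρ (s n)
  | .v k t x j => eff (fun i j => ev ρ (t i j)) (ρ.p x) (ρ.w k t x) j

variable (D) in
inductive Good : Tm M → Prop
  | p x : Good (.p x)
  | zero : Good .zero
  | add {s t} : Good s → Good t → Good (.add s t)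
  | mul {s t} : Good s → Good t → Good (.mul s t)
  | star {s} : Good s → Good (.star s)
  | smul c {s} : Good s → Good (.smul c s)
  | lim {s : ℕ → Tm M} (g : Md D M → A) : (∀ n, Good (s n)) →
      TendstoUniformly (fun n ρ => ev ρ (s n)) g atTop → Good (.lim s)
  | v {k} {t : Fin k → Fin k → Tm M} {x} j : (∀ i j, Good (t i j)) →
      (∀ ρ : Md D M, ∃ w, Cond (fun i j => ev ρ (t i j)) (ρ.p x) w) → Good (.v k t x j)

lemma ev_lim {s : ℕ → Tm M} {g : Md D M → A}
    (h : TendstoUniformly (fun n ρ => ev ρ (s n)) g atTop) (ρ : Md D M) :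
    ev ρ (.lim s) = g ρ := (h.tendsto_at ρ).limUnder_eq

lemma ev_v {k : ℕ} {t : Fin k → Fin k → Tm M} {x : M} {ρ : Md D M}
    (h : ∃ w, Cond (fun i j => ev ρ (t i j)) (ρ.p x) w) :
    Cond (fun i j => ev ρ (t i j)) (ρ.p x) fun j => ev ρ (.v k t x j) := eff_cond h _

section
variable {N : Type} [AddCommMonoid N]

def Md.pull (f : M →+ N) (ρ : Md D N) : Md D M where
  r := ρ.r.comp f
  p x := ρ.p (f x)
  hp x := ρ.hp (f x)
  w k t x := ρ.w k (fun i j => (t i j).map f) (f x)

lemma ev_pull (f : M →+ N) (ρ : Md D N) (t : Tm M) : ev (ρ.pull f) t = ev ρ (t.map f) := by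
  induction t <;> simp only [ev, Tm.map, *] <;> rfl

lemma Good.map (f : M →+ N) {t : Tm M} (h : Good D t) : Good D (t.map f) := by
  induction h with
  | p x => exact .p _
  | zero => exact .zero
  | add _ _ a b => exact a.add b
  | mul _ _ a b => exact a.mul b
  | star _ a => exact a.star
  | smul c _ a => exact a.smul c
  | lim g _ h a =>
    refine .lim (fun ρ => g (ρ.pull f)) a ?_
    simp only [← ev_pull]
    exact h.comp _
  | v j _ h a =>
    refine .v j a fun ρ => ?_
    simp only [← ev_pull]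
    exact h (ρ.pull f)

lemma pull_id (ρ : Md D M) : ρ.pull (AddMonoidHom.id M) = ρ := by
  ext1
  · rfl
  · rfl
  · funext k t x
    exact congrArg (ρ.w k · x) (funext₂ fun i j => Tm.map_id _)

lemma pull_comp {P : Type} [AddCommMonoid P] (f : M →+ N) (g : N →+ P) (ρ : Md D P) :
    ρ.pull (g.comp f) = (ρ.pull g).pull f := by
  ext1
  · rfl
  · rfl
  · funext k t x
    exact congrArg (ρ.w k · (g (f x))) (funext₂ fun i j => (Tm.map_map f g (t i j)).symm)

end

lemma Good.K {t : Tm M} (h : Good D t) (ρ : Md D M) : D.K (ev ρ t) := by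
  induction h with
  | p x => exact D.K_proj (ρ.hp x).1 (ρ.hp x).2.1
  | zero => exact D.K_proj (.zero A) D.Fn0
  | add _ _ a b => exact D.K_add a b
  | mul _ _ a b => simpa [ev] using D.K_mul a 1 _
  | star _ a => exact D.K_star a
  | smul c _ a => simpa [ev] using D.K_mul a (c • 1) 1
  | lim g _ h a =>
    rw [ev_lim h]
    exact isClosed_closure.mem_of_tendsto (h.tendsto_at ρ) (Eventually.of_forall a)
  | @v k t x j _ h a =>
    rw [← (D.cond_left (ev_v (h ρ)) (ρ.hp x).1 j).1]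
    simpa using D.K_mul (D.K_proj (ρ.hp x).1 (ρ.hp x).2.1) 1 _

noncomputable def Md.sum (ρ ρ' : Md D M) : Md D M where
  r := ρ.r + ρ'.r
  p x := D.J (ρ.p x, ρ'.p x)
  hp x := by
    have := D.J_proj (ρ.hp x).1 (ρ'.hp x).1 (ρ.hp x).2.1 (ρ'.hp x).2.1
    rwa [(ρ.hp x).2.2, (ρ'.hp x).2.2] at this
  w k t x j := D.J (ev ρ (.v k t x j), ev ρ' (.v k t x j))

lemma ev_sum {t : Tm M} (h : Good D t) (ρ ρ' : Md D M) :
    ev (ρ.sum ρ') t = D.J (ev ρ t, ev ρ' t) := by
  induction h with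
  | p x => rfl
  | zero => exact (map_zero D.J).symm
  | add _ _ a b => simp only [ev, a, b, ← map_add]; rfl
  | mul _ _ a b => simp only [ev, a, b, ← map_mul]; rfl
  | star _ a => simp only [ev, a, ← map_star]; rfl
  | smul c _ a => simp only [ev, a, ← map_smul]; rfl
  | lim g _ h a =>
    simp only [ev_lim h]
    refine tendsto_nhds_unique (h.tendsto_at _) ?_
    simp only [a]
    exact (D.J_cont.tendsto _).comp ((h.tendsto_at ρ).prodMk_nhds (h.tendsto_at ρ'))
  | @v k t x j _ h a =>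
    have c1 := ev_v (h ρ)
    have c2 := ev_v (h ρ')
    rw [ev, eff, if_pos]
    · rfl
    · refine ⟨fun i j => ?_, ?_⟩
      · simp only [Md.sum, ← map_star, ← map_mul]
        exact (congrArg D.J (Prod.ext (c1.1 i j) (c2.1 i j))).trans (a i j).symm
      · simp only [Md.sum, ← map_star, ← map_mul, ← map_sum]
        congr 1
        exact Prod.ext ((Prod.fst_sum).trans c1.2) ((Prod.snd_sum).trans c2.2)

section Path
variable (ρ ρ' : Md D M) (γ : M → I → A)

noncomputable def pw (k : ℕ) (a : I → Fin k → Fin k → A) (t : Fin k → Fin k → Tm M) (x : M) :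
    I → Fin k → A :=
  Classical.epsilon fun w => Continuous w ∧ w 0 = (fun j => ev ρ (.v k t x j)) ∧
    w 1 = (fun j => ev ρ' (.v k t x j)) ∧ ∀ τ, Cond (a τ) (γ x τ) (w τ)

noncomputable def evp : Tm M → I → A
  | .p x => γ x
  | .zero => 0
  | .add s t => evp s + evp t
  | .mul s t => evp s * evp t
  | .star s => star (evp s)
  | .smul c s => c • evp s
  | .lim s => fun τ => limUnder atTop fun n => evp (s n) τ
  | .v k t x j => fun τ => eff (fun i j => evp (t i j) τ) (γ x τ)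
      (pw ρ ρ' γ k (fun τ i j => evp (t i j) τ) t x τ) j

theorem homotopy (h : ρ.r = ρ'.r) : ∃ m : I → Md D M, ∀ t, Good D t →
    Continuous (fun τ => ev (m τ) t) ∧ ev (m 0) t = ev ρ t ∧ ev (m 1) t = ev ρ' t := by
  choose γ g1 g2 g3 g4 using fun x => D.path_proj (ρ.hp x).1 (ρ'.hp x).1 (ρ.hp x).2.1
    (ρ'.hp x).2.1 (by rw [(ρ.hp x).2.2, (ρ'.hp x).2.2, h])
  have g5 : ∀ x, D.Fn (γ x 0) := fun x => (g2 x).symm ▸ (ρ.hp x).2.1
  let m : I → Md D M := fun τ =>
    { r := ρ.r
      p := fun x => γ x τ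
      hp := fun x => by
        have := D.path_rk (g1 x) (g4 x) (g5 x) τ
        rw [g2, (ρ.hp x).2.2] at this
        exact ⟨g4 x τ, this⟩
      w := fun k t x => pw ρ ρ' γ k (fun τ i j => evp ρ ρ' γ (t i j) τ) t x τ }
  have e : ∀ t τ, ev (m τ) t = evp ρ ρ' γ t τ := by
    intro t τ
    induction t <;> simp only [ev, evp, *] <;> rfl
  refine ⟨m, fun t ht => ?_⟩
  induction ht with
  | p x => exact ⟨g1 x, g2 x, g3 x⟩
  | zero => exact ⟨continuous_const, rfl, rfl⟩
  | add _ _ a b => exact ⟨a.1.add b.1, by simp only [ev, a, b], by simp only [ev, a, b]⟩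
  | mul _ _ a b => exact ⟨a.1.mul b.1, by simp only [ev, a, b], by simp only [ev, a, b]⟩
  | star _ a => exact ⟨a.1.star, by simp only [ev, a], by simp only [ev, a]⟩
  | smul c _ a => exact ⟨a.1.const_smul c, by simp only [ev, a], by simp only [ev, a]⟩
  | lim g _ h a =>
    refine ⟨?_, by simp only [ev, a], by simp only [ev, a]⟩
    simp only [ev_lim h]
    exact (h.comp m).continuous (Frequently.of_forall fun n => (a n).1)
  | @v k t x j _ h a =>
    have c0 := ev_v (h ρ)
    have c1 := ev_v (h ρ')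
    obtain ⟨w1, w2, w3, w4⟩ : (fun w => Continuous w ∧ w 0 = (fun j => ev ρ (.v k t x j)) ∧
        w 1 = (fun j => ev ρ' (.v k t x j)) ∧
        ∀ τ, Cond (fun i j => evp ρ ρ' γ (t i j) τ) (γ x τ) (w τ))
        (pw ρ ρ' γ k (fun τ i j => evp ρ ρ' γ (t i j) τ) t x) := by
      refine Classical.epsilon_spec (D.cond_path (a := fun τ i j => evp ρ ρ' γ (t i j) τ)
        (fun i j => by simpa only [e] using (a i j).1) (fun τ => ?_) (g1 x) (g4 x) (g5 x) ?_ ?_)
      · obtain ⟨w, hw⟩ := h (m τ)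
        simpa only [e] using D.cond_PM hw (g4 x τ)
      · simpa only [← e, a, g2] using c0
      · simpa only [← e, a, g3] using c1
    have e2 : ∀ τ, ev (m τ) (.v k t x j) =
        pw ρ ρ' γ k (fun τ i j => evp ρ ρ' γ (t i j) τ) t x τ j := fun τ => by
      rw [e, evp]; simp only [eff, if_pos (w4 τ)]
    simp only [e2]
    exact ⟨(continuous_apply j).comp w1, congrFun w2 j, congrFun w3 j⟩

end Path

variable (D) in
noncomputable def base (r : M →+ ℕ) : Md D M where
  r := r
  p x := (D.ex_rk (r x)).choose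
  hp x := (D.ex_rk (r x)).choose_spec
  w _ _ _ := 0

theorem rk_lin {n k : ℕ} {t : Fin k → Fin k → Tm (Fin n → ℕ)} (ht : ∀ i j, Good D (t i j))
    (hp : ∀ ρ : Md D (Fin n → ℕ), RD.PM fun i j => ev ρ (t i j)) (ρ : Md D (Fin n → ℕ)) :
    D.rk (D.Ψ fun i j => ev ρ (t i j)) = ρ.r fun l =>
      D.rk (D.Ψ fun i j => ev (base D (Pi.evalAddMonoidHom (fun _ => ℕ) l)) (t i j)) := by
  have fn : ∀ ρ : Md D (Fin n → ℕ), D.Fn (D.Ψ fun i j => ev ρ (t i j)) := fun ρ =>
    D.K_Ψ (fun i j => (ht i j).K ρ) (hp ρ)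
  have h1 : ∀ ρ ρ' : Md D (Fin n → ℕ), ρ.r = ρ'.r →
      D.rk (D.Ψ fun i j => ev ρ' (t i j)) = D.rk (D.Ψ fun i j => ev ρ (t i j)) := by
    intro ρ ρ' h
    obtain ⟨m, hm⟩ := homotopy ρ ρ' h
    have := (D.path_rk (D.Ψ_cont (a := fun τ i j => ev (m τ) (t i j)) fun i j => (hm _ (ht i j)).1)
      (fun τ => D.Ψ_proj (hp _)) (fn _) 1).2
    simpa only [(hm _ (ht _ _)).2] using this
  have h2 : ∀ r r' : (Fin n → ℕ) →+ ℕ, D.rk (D.Ψ fun i j => ev (base D (r + r')) (t i j)) =
      D.rk (D.Ψ fun i j => ev (base D r) (t i j)) + D.rk (D.Ψ fun i j => ev (base D r') (t i j)) := by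
    intro r r'
    rw [h1 ((base D r).sum (base D r')) (base D (r + r')) rfl, ← D.rk_J (hp _) (hp _) (fn _) (fn _)]
    simp only [ev_sum (ht _ _)]
  let G : ((Fin n → ℕ) →+ ℕ) →+ ℕ :=
    { toFun := fun r => D.rk (D.Ψ fun i j => ev (base D r) (t i j))
      map_zero' := by have := h2 0 0; rw [add_zero] at this; omega
      map_add' := h2 }
  have h3 : ρ.r = ∑ l, ρ.r (Pi.single l 1) • Pi.evalAddMonoidHom (fun _ => ℕ) l := by
    ext l
    simp [Pi.single_apply]
  have h4 : ∀ x, ρ.r x = ∑ l, ρ.r (Pi.single l 1) * x l := fun x => by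
    conv_lhs => rw [h3]
    simp
  rw [h1 (base D ρ.r) ρ rfl, h4]
  show G ρ.r = ∑ l, _ * G _
  conv_lhs => rw [h3]
  simp [map_sum]

end Pool.Agent.H.MP_ba91e3_al
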