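import Pool.Agent.H.MP_ba91e3_al.D

set_option autoImplicit false

namespace Pool.Agent.H.MP_ba91e3_al

open Filter Topology BoundedContinuousFunction Matrix

variable {A : Type} [CStarAlgebra A] (D : RD A) (M : Type) [AddCommMonoid M]

instance : TopologicalSpace (Md D M) := ⊥
instance : DiscreteTopology (Md D M) := ⟨rfl⟩

def Alg : NonUnitalStarSubalgebra ℂ (Md D M →ᵇ A) where
  carrier := {a | ∃ t, Good D t ∧ ∀ ρ, a ρ = ev ρ t}
  zero_mem' := ⟨.zero, .zero, fun _ => rfl⟩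
  add_mem' := fun ⟨s, a, b⟩ ⟨t, c, d⟩ => ⟨.add s t, a.add c, fun ρ => by simp [ev, b, d]⟩
  mul_mem' := fun ⟨s, a, b⟩ ⟨t, c, d⟩ => ⟨.mul s t, a.mul c, fun ρ => by simp [ev, b, d]⟩
  smul_mem' := fun c _ ⟨s, a, b⟩ => ⟨.smul c s, a.smul c, fun ρ => by simp [ev, b]⟩
  star_mem' := fun ⟨s, a, b⟩ => ⟨.star s, a.star, fun ρ => by simp [ev, b]⟩

instance : IsClosed (Alg D M : Set (Md D M →ᵇ A)) := by
  refine isSeqClosed_iff_isClosed.1 fun x a hx ha => ?_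
  choose s s1 s2 using hx
  have := BoundedContinuousFunction.tendsto_iff_tendstoUniformly.1 ha
  have e : (fun n => (x n : Md D M → A)) = fun n ρ => ev ρ (s n) := funext₂ s2
  rw [e] at this
  exact ⟨.lim s, .lim a s1 this, fun ρ => (ev_lim this ρ).symm⟩

noncomputable instance : NonUnitalCStarAlgebra (Alg D M) :=
  NonUnitalStarSubalgebra.nonUnitalCStarAlgebra _

variable {D M}

noncomputable def mkA (t : Tm M) (ht : Good D t) (hb : ∀ ρ : Md D M, ‖ev ρ t‖ ≤ 1) : Alg D M :=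
  ⟨ofNormedAddCommGroupDiscrete (fun ρ => ev ρ t) 1 hb, t, ht, fun _ => rfl⟩

variable (D) in
noncomputable def PP (x : M) : Alg D M := mkA (.p x) (.p x) fun ρ => (ρ.hp x).1.norm_le

/-- evaluation at a model -/
noncomputable def at' (ρ : Md D M) : Alg D M →⋆ₙₐ[ℂ] A where
  toFun a := a.1 ρ
  map_smul' _ _ := rfl
  map_zero' := rfl
  map_add' _ _ := rfl
  map_mul' _ _ := rfl
  map_star' _ := rfl

lemma at_ext {a b : Alg D M} (h : ∀ ρ, at' ρ a = at' ρ b) : a = b :=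
  Subtype.ext (BoundedContinuousFunction.ext h)

variable {N : Type} [AddCommMonoid N]

noncomputable def Fm (f : M →+ N) : Alg D M →⋆ₙₐ[ℂ] Alg D N where
  toFun a := ⟨a.1.compContinuous ⟨Md.pull f, continuous_of_discreteTopology⟩, by
    obtain ⟨t, h1, h2⟩ := a.2
    exact ⟨t.map f, h1.map f, fun ρ => (h2 _).trans (ev_pull f ρ t)⟩⟩
  map_smul' _ _ := rfl
  map_zero' := rfl
  map_add' _ _ := rfl
  map_mul' _ _ := rfl
  map_star' _ := rfl

lemma at_Fm (f : M →+ N) (a : Alg D M) (ρ : Md D N) : at' ρ (Fm f a) = at' (ρ.pull f) a := rfl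

lemma map_ct {ι κ : Type} (ρ : Md D M) (v : Matrix ι κ (Alg D M)) :
    (vᴴ).map (at' ρ) = (v.map (at' ρ))ᴴ := rfl

lemma PM_at {k : ℕ} {p : Matrix (Fin k) (Fin k) (Alg D M)} (h1 : p * p = p) (h2 : pᴴ = p)
    (ρ : Md D M) : RD.PM fun i j => at' ρ (p i j) :=
  ⟨(Matrix.map_mul (f := at' ρ)).symm.trans (congrArg (·.map (at' ρ)) h1),
    (map_ct ρ p).symm.trans (congrArg (·.map (at' ρ)) h2)⟩

lemma Fn_at {k : ℕ} {p : Matrix (Fin k) (Fin k) (Alg D M)} (h1 : p * p = p) (h2 : pᴴ = p)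
    (ρ : Md D M) : D.Fn (D.Ψ fun i j => at' ρ (p i j)) :=
  D.K_Ψ (fun i j => by
    obtain ⟨t, a, b⟩ := (p i j).2
    exact (b ρ).symm ▸ a.K ρ) (PM_at h1 h2 ρ)

noncomputable def φ {n k : ℕ} (p : Matrix (Fin k) (Fin k) (Alg D (Fin n → ℕ))) : Fin n → ℕ :=
  fun l => D.rk (D.Ψ fun i j => at' (base D (Pi.evalAddMonoidHom (fun _ => ℕ) l)) (p i j))

lemma key1 {n k : ℕ} {p : Matrix (Fin k) (Fin k) (Alg D (Fin n → ℕ))} (h1 : p * p = p)
    (h2 : pᴴ = p) (ρ : Md D (Fin n → ℕ)) : D.rk (D.Ψ fun i j => at' ρ (p i j)) = ρ.r (φ p) := by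
  choose t t1 t2 using fun i j => (p i j).2
  have e : ∀ ρ i j, at' ρ (p i j) = ev ρ (t i j) := fun ρ i j => t2 i j ρ
  have := rk_lin t1 (fun ρ => by simpa only [e] using PM_at h1 h2 ρ) ρ
  simp only [← e] at this
  exact this

lemma key2 {n k : ℕ} {p : Matrix (Fin k) (Fin k) (Alg D (Fin n → ℕ))} (h1 : p * p = p)
    (h2 : pᴴ = p) : ∃ w, Cond p (PP D (φ p)) w ∧ ∀ j, PP D (φ p) * w j = w j := by
  choose t t1 t2 using fun i j => (p i j).2
  have e : ∀ ρ i j, at' ρ (p i j) = ev ρ (t i j) := fun ρ i j => t2 i j ρ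
  have h : ∀ ρ : Md D (Fin n → ℕ), ∃ w, Cond (fun i j => ev ρ (t i j)) (ρ.p (φ p)) w := by
    intro ρ
    simp only [← e]
    exact D.cond_ex (PM_at h1 h2 ρ) (Fn_at h1 h2 ρ) (ρ.hp _).1 (ρ.hp _).2.1
      ((key1 h1 h2 ρ).trans (ρ.hp _).2.2.symm)
  refine ⟨fun j => mkA (.v k t (φ p) j) (.v j t1 h)
    fun ρ => (D.cond_left (ev_v (h ρ)) (ρ.hp _).1 j).2, ⟨fun i j => at_ext fun ρ => ?_,
      at_ext fun ρ => ?_⟩, fun j => at_ext fun ρ => ?_⟩
  · rw [e]; exact (ev_v (h ρ)).1 i j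
  · rw [map_sum]; exact (ev_v (h ρ)).2
  · exact (D.cond_left (ev_v (h ρ)) (ρ.hp _).1 j).1

lemma φ_iff {n k l : ℕ} {p : Matrix (Fin k) (Fin k) (Alg D (Fin n → ℕ))}
    {q : Matrix (Fin l) (Fin l) (Alg D (Fin n → ℕ))} (h1 : p * p = p) (h2 : pᴴ = p)
    (h3 : q * q = q) (h4 : qᴴ = q) : φ p = φ q ↔
      ∃ v : Matrix (Fin l) (Fin k) (Alg D (Fin n → ℕ)), vᴴ * v = p ∧ v * vᴴ = q := by
  constructor
  · intro h
    obtain ⟨w, w1, w2⟩ := key2 h1 h2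
    obtain ⟨u, u1, u2⟩ := key2 h3 h4
    rw [← h] at u1 u2
    refine ⟨fun i j => star (u i) * w j, ?_, ?_⟩ <;> ext1 i j
    · rw [← w1.1, ← w2 j, ← u1.2]
      simp only [Matrix.mul_apply, conjTranspose_apply, star_mul, star_star, Finset.mul_sum,
        Finset.sum_mul, mul_assoc]
    · rw [← u1.1, ← u2 j, ← w1.2]
      simp only [Matrix.mul_apply, conjTranspose_apply, star_mul, star_star, Finset.mul_sum,
        Finset.sum_mul, mul_assoc]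
  · rintro ⟨v, v1, v2⟩
    funext m
    exact (D.Φ_eqv (D.iso_sk k) (D.iso_sk l) (v := v.map (at' _))
      (by rw [← map_ct, ← Matrix.map_mul, v1]; rfl) (by rw [← map_ct, ← Matrix.map_mul, v2]; rfl)
      (PM_at h1 h2 _).1 (Fn_at h1 h2 _)).2.symm

lemma φ_add {n k l : ℕ} {p : Matrix (Fin k) (Fin k) (Alg D (Fin n → ℕ))}
    {q : Matrix (Fin l) (Fin l) (Alg D (Fin n → ℕ))} (h1 : p * p = p) (h2 : pᴴ = p)
    (h3 : q * q = q) (h4 : qᴴ = q) :
    φ (reindex finSumFinEquiv finSumFinEquiv (fromBlocks p 0 0 q)) = φ p + φ q := by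
  funext m
  rw [Pi.add_apply, φ, φ, φ, ← D.rk_orth (a := fun i => D.sk (k + l) (Fin.castAdd l i))
    (b := fun i => D.sk (k + l) (Fin.natAdd k i)) (fun i j => by simp [D.iso_sk _ _ _])
    (fun i j => by simp [D.iso_sk _ _ _]) (fun i j => by
      rw [D.iso_sk, if_neg]
      intro h
      have := congrArg Fin.val h
      simp at this; omega) (PM_at h1 h2 _) (PM_at h3 h4 _) (Fn_at h1 h2 _) (Fn_at h3 h4 _)]
  congr 1
  simp [RD.Ψ, Φ, Fin.sum_univ_add]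

lemma φ_PP {n : ℕ} (x : Fin n → ℕ) : φ (k := 1) (fun _ _ => PP D x) = x := by
  funext m
  let ρ := base D (Pi.evalAddMonoidHom (fun _ : Fin n => ℕ) m)
  have h := ρ.hp x
  refine (D.cond_rk (q := ρ.p x) (w := fun _ => ρ.p x) ⟨fun _ _ => ?_, ?_⟩ h.1 h.2.1).trans h.2.2
  · rw [h.1.2.star_eq]; exact h.1.1
  · simp [h.1.2.star_eq, h.1.1.eq]

end Pool.Agent.H.MP_ba91e3_al
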